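import Mathlib
set_option autoImplicit false
namespace Pool.Agent.Results.MP_9cbc66_an.ChaosBound

/-- The discrete cube `{-1,1}^n`. -/
abbrev Cube (n : ℕ) := Fin n → ℤˣ

/-- `f` is a 2-homogeneous polynomial on the cube. -/
def IsTwoHom {n : ℕ} (f : Cube n → ℝ) : Prop :=
  ∃ a : Fin n → Fin n → ℝ, ∀ x, f x = ∑ i, ∑ j, if i < j then
    a i j * ((x i : ℤ) : ℝ) * ((x j : ℤ) : ℝ) else 0

/-- The `L^p` norm on the cube for the uniform probability measure. -/
noncomputable def lpNorm {n : ℕ} (p : ℝ) (f : Cube n → ℝ) : ℝ :=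
  ((2 : ℝ) ^ (-(n : ℝ)) * ∑ x, |f x| ^ p) ^ (1 / p)

/-- the `i`-th coordinate as a real number -/
def sg {n : ℕ} (x : Cube n) (i : Fin n) : ℝ := ((x i : ℤ) : ℝ)

lemma sg_mul_self {n : ℕ} (x : Cube n) (i : Fin n) : sg x i * sg x i = 1 := by
  rcases Int.units_eq_one_or (x i) with h | h <;> simp [sg, h]

lemma sg_sq {n : ℕ} (x : Cube n) (i : Fin n) : sg x i ^ 2 = 1 := by
  rw [sq]; exact sg_mul_self x i

/-- flipping the `i`-th coordinate -/
def flp {n : ℕ} (i : Fin n) (x : Cube n) : Cube n := Function.update x i (-(x i))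

lemma flp_flp {n : ℕ} (i : Fin n) (x : Cube n) : flp i (flp i x) = x := by
  funext j
  by_cases h : j = i
  · subst h; simp [flp]
  · simp [flp, h]

def flpEquiv {n : ℕ} (i : Fin n) : Cube n ≃ Cube n :=
  ⟨flp i, flp i, flp_flp i, flp_flp i⟩

lemma sum_flp {n : ℕ} (i : Fin n) (h : Cube n → ℝ) : ∑ x, h (flp i x) = ∑ x, h x :=
  Equiv.sum_comp (flpEquiv i) h

lemma sg_flp {n : ℕ} (i j : Fin n) (x : Cube n) :
    sg (flp i x) j = (if j = i then -1 else 1) * sg x j := by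
  by_cases h : j = i
  · subst h; simp [flp, sg]
  · simp [flp, sg, h]

structure IsKato {n : ℕ} (ρ : Cube n → ℝ) : Prop where
  nonneg : ∀ x, 0 ≤ ρ x
  kato : ∀ x, ∑ i, (ρ x - ρ (flp i x)) ≤ 4 * ρ x

lemma swap_sum {n : ℕ} (ρ ψ : Cube n → ℝ) :
    ∑ x, ρ x * ∑ i, (ψ x - ψ (flp i x)) = ∑ x, ψ x * ∑ i, (ρ x - ρ (flp i x)) := by
  simp_rw [Finset.mul_sum]
  rw [Finset.sum_comm, Finset.sum_comm (f := fun x i => ψ x * (ρ x - ρ (flp i x)))]
  apply Finset.sum_congr rfl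
  intro i _
  simp_rw [mul_sub, Finset.sum_sub_distrib]
  congr 1
  · exact Finset.sum_congr rfl (fun x _ => mul_comm _ _)
  · rw [← sum_flp i (fun x => ρ x * ψ (flp i x))]
    apply Finset.sum_congr rfl
    intro x _
    simp only [flp_flp]
    ring

lemma IsKato.test {n : ℕ} {ρ : Cube n → ℝ} (h : IsKato ρ) (ψ : Cube n → ℝ)
    (hψ : ∀ x, 0 ≤ ψ x) :
    0 ≤ ∑ x, ρ x * (4 * ψ x - ∑ i, (ψ x - ψ (flp i x))) := by
  have e : ∀ a b : Cube n → ℝ, ∑ x, a x * (4 * b x - ∑ i, (b x - b (flp i x)))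
      = ∑ x, a x * (4 * b x) - ∑ x, a x * ∑ i, (b x - b (flp i x)) := by
    intro a b
    rw [← Finset.sum_sub_distrib]
    exact Finset.sum_congr rfl (fun x _ => mul_sub _ _ _)
  have h1 : ∑ x, ρ x * (4 * ψ x - ∑ i, (ψ x - ψ (flp i x)))
      = ∑ x, ψ x * (4 * ρ x - ∑ i, (ρ x - ρ (flp i x))) := by
    rw [e, e, swap_sum]
    congr 1
    apply Finset.sum_congr rfl
    intro x _
    ring
  rw [h1]
  apply Finset.sum_nonneg
  intro x _
  exact mul_nonneg (hψ x) (by linarith [h.kato x])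

/-- linear forms -/
def lin {n : ℕ} (v : Fin n → ℝ) (x : Cube n) : ℝ := ∑ i, v i * sg x i

lemma lin_flp {n : ℕ} (v : Fin n → ℝ) (i : Fin n) (x : Cube n) :
    lin v (flp i x) = lin v x - 2 * (v i * sg x i) := by
  unfold lin
  have : ∀ j, v j * sg (flp i x) j = v j * sg x j - (if j = i then 2 * (v i * sg x i) else 0) := by
    intro j
    rw [sg_flp]
    by_cases h : j = i
    · subst h; simp; ring
    · simp [h]
  simp_rw [this]
  rw [Finset.sum_sub_distrib]
  simp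

lemma lin_flp' {n : ℕ} (v : Fin n → ℝ) (i : Fin n) (x : Cube n) :
    lin v (flp i x) = lin (fun j => if j = i then - v j else v j) x := by
  unfold lin
  apply Finset.sum_congr rfl
  intro j _
  rw [sg_flp]
  by_cases h : j = i
  · simp [h]
  · simp [h]

lemma sum_neg_sq {n : ℕ} (v : Fin n → ℝ) (i : Fin n) :
    ∑ j, (if j = i then - v j else v j) ^ 2 = ∑ j, v j ^ 2 := by
  apply Finset.sum_congr rfl
  intro j _
  by_cases h : j = i <;> simp [h]

/-- flips change `s` into `s - 2 y_i` with `∑ y_i = s`, `∑ y_i^2 = σ^2`. -/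
lemma sum_y {n : ℕ} (v : Fin n → ℝ) (x : Cube n) : ∑ i, v i * sg x i = lin v x := rfl

lemma sum_y_sq {n : ℕ} (v : Fin n → ℝ) (x : Cube n) :
    ∑ i, (v i * sg x i) ^ 2 = ∑ i, v i ^ 2 := by
  apply Finset.sum_congr rfl
  intro i _
  rw [mul_pow, sg_sq, mul_one]

lemma abs_lin_kato {n : ℕ} (v : Fin n → ℝ) (x : Cube n) :
    ∑ i, (|lin v x| - |lin v (flp i x)|) ≤ 2 * |lin v x| := by
  rcases le_total 0 (lin v x) with h | h
  · have h1 : ∀ i, |lin v x| - |lin v (flp i x)| ≤ 2 * (v i * sg x i) := by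
      intro i
      rw [lin_flp, abs_of_nonneg h]
      linarith [le_abs_self (lin v x - 2 * (v i * sg x i))]
    calc _ ≤ ∑ i, 2 * (v i * sg x i) := Finset.sum_le_sum (fun i _ => h1 i)
      _ = 2 * |lin v x| := by rw [← Finset.mul_sum, sum_y, abs_of_nonneg h]
  · have h1 : ∀ i, |lin v x| - |lin v (flp i x)| ≤ -2 * (v i * sg x i) := by
      intro i
      rw [lin_flp, abs_of_nonpos h]
      linarith [neg_abs_le (lin v x - 2 * (v i * sg x i))]
    calc _ ≤ ∑ i, -2 * (v i * sg x i) := Finset.sum_le_sum (fun i _ => h1 i)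
      _ = 2 * |lin v x| := by rw [← Finset.mul_sum, sum_y, abs_of_nonpos h]; ring

lemma sq_lin {n : ℕ} (v : Fin n → ℝ) (x : Cube n) :
    ∑ i, (lin v x ^ 2 - lin v (flp i x) ^ 2) = 4 * lin v x ^ 2 - 4 * ∑ i, v i ^ 2 := by
  have h1 : ∀ i, lin v x ^ 2 - lin v (flp i x) ^ 2
      = 4 * lin v x * (v i * sg x i) - 4 * (v i * sg x i) ^ 2 := by
    intro i
    rw [lin_flp]; ring
  simp_rw [h1]
  rw [Finset.sum_sub_distrib, ← Finset.mul_sum, ← Finset.mul_sum, sum_y, sum_y_sq]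
  ring

/-- First moment bound for linear forms. -/
lemma IsKato.first {n : ℕ} {ρ : Cube n → ℝ} (h : IsKato ρ) (v : Fin n → ℝ) (σ : ℝ)
    (hσ : 0 < σ) (hv : ∑ i, v i ^ 2 = σ ^ 2) :
    ∑ x, ρ x * |lin v x| ≤ 2 * σ * ∑ x, ρ x := by
  have ht := h.test (fun x => (|lin v x| - σ) ^ 2) (fun x => sq_nonneg _)
  have h1 : ∀ x, ρ x * (4 * (|lin v x| - σ) ^ 2 -
      ∑ i, ((|lin v x| - σ) ^ 2 - (|lin v (flp i x)| - σ) ^ 2))
      ≤ 8 * σ ^ 2 * ρ x - 4 * σ * (ρ x * |lin v x|) := by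
    intro x
    have e1 : ∑ i, ((|lin v x| - σ) ^ 2 - (|lin v (flp i x)| - σ) ^ 2)
        = ∑ i, (lin v x ^ 2 - lin v (flp i x) ^ 2)
          - 2 * σ * ∑ i, (|lin v x| - |lin v (flp i x)|) := by
      rw [Finset.mul_sum, ← Finset.sum_sub_distrib]
      apply Finset.sum_congr rfl
      intro i _
      rw [sub_sq, sub_sq, sq_abs, sq_abs]; ring
    rw [e1, sq_lin, hv]
    have h2 := abs_lin_kato v x
    have h3 := h.nonneg x
    have h4 : 4 * (|lin v x| - σ) ^ 2 - (4 * lin v x ^ 2 - 4 * σ ^ 2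
        - 2 * σ * ∑ i, (|lin v x| - |lin v (flp i x)|)) ≤ 8 * σ ^ 2 - 4 * σ * |lin v x| := by
      rw [sub_sq, sq_abs]
      nlinarith [mul_le_mul_of_nonneg_left h2 hσ.le]
    nlinarith [mul_le_mul_of_nonneg_left h4 h3]
  have h5 : 0 ≤ 8 * σ ^ 2 * ∑ x, ρ x - 4 * σ * ∑ x, ρ x * |lin v x| := by
    rw [Finset.mul_sum, Finset.mul_sum, ← Finset.sum_sub_distrib]
    exact ht.trans (Finset.sum_le_sum (fun x _ => h1 x))
  have h6 : σ * (∑ x, ρ x * |lin v x|) ≤ σ * (2 * σ * ∑ x, ρ x) := by nlinarith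
  exact le_of_mul_le_mul_left h6 hσ

lemma cube_ineq (a y : ℝ) :
    |a - 2 * y| ^ 3 - |a| ^ 3 ≤ -6 * y * (a * |a|) + 4 * y ^ 2 * (2 * |a| + |a - 2 * y|) := by
  wlog ha : 0 ≤ a with H
  · have := H (-a) (-y) (by linarith)
    have e : -a - 2 * -y = -(a - 2 * y) := by ring
    rw [e, abs_neg, abs_neg] at this
    nlinarith [this]
  · rw [abs_of_nonneg ha]
    rcases le_total 0 (a - 2 * y) with h | h
    · rw [abs_of_nonneg h]; nlinarith
    · rw [abs_of_nonpos h]
      have h1 : 0 ≤ 2 * y - a := by linarith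
      have h2 : 0 ≤ 4 * y - a := by linarith
      nlinarith [mul_nonneg (mul_nonneg ha h1) h2]

lemma cube_sum {n : ℕ} (v : Fin n → ℝ) (x : Cube n) :
    ∑ i, (|lin v (flp i x)| ^ 3 - |lin v x| ^ 3) ≤
      -6 * |lin v x| ^ 3 + 8 * (∑ i, v i ^ 2) * |lin v x|
        + 4 * ∑ i, v i ^ 2 * |lin v (flp i x)| := by
  have h1 : ∀ i, |lin v (flp i x)| ^ 3 - |lin v x| ^ 3 ≤
      -6 * (lin v x * |lin v x|) * (v i * sg x i)
        + 8 * |lin v x| * v i ^ 2 + 4 * (v i ^ 2 * |lin v (flp i x)|) := by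
    intro i
    have h2 := cube_ineq (lin v x) (v i * sg x i)
    rw [← lin_flp] at h2
    have h3 : (v i * sg x i) ^ 2 = v i ^ 2 := by rw [mul_pow, sg_sq, mul_one]
    rw [h3] at h2
    linarith
  calc _ ≤ ∑ i, (-6 * (lin v x * |lin v x|) * (v i * sg x i)
        + 8 * |lin v x| * v i ^ 2 + 4 * (v i ^ 2 * |lin v (flp i x)|)) :=
        Finset.sum_le_sum (fun i _ => h1 i)
    _ = _ := by
        rw [Finset.sum_add_distrib, Finset.sum_add_distrib, ← Finset.mul_sum, ← Finset.mul_sum,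
          ← Finset.mul_sum, sum_y]
        have : |lin v x| ^ 3 = lin v x ^ 2 * |lin v x| := by
          rw [← sq_abs]; ring
        rw [this]; ring

/-- Third moment bound for linear forms. -/
lemma IsKato.third {n : ℕ} {ρ : Cube n → ℝ} (h : IsKato ρ) (v : Fin n → ℝ) (σ : ℝ)
    (hσ : 0 < σ) (hv : ∑ i, v i ^ 2 = σ ^ 2) :
    ∑ x, ρ x * |lin v x| ^ 3 ≤ 10 * σ ^ 3 * ∑ x, ρ x := by
  have hψ : ∀ x, 0 ≤ (|lin v x| - σ) ^ 2 * (|lin v x| + σ / 2) := by
    intro x
    have := abs_nonneg (lin v x)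
    positivity
  have ht := h.test (fun x => (|lin v x| - σ) ^ 2 * (|lin v x| + σ / 2)) hψ
  have e0 : ∀ x, (|lin v x| - σ) ^ 2 * (|lin v x| + σ / 2)
      = |lin v x| ^ 3 - 3 / 2 * σ * lin v x ^ 2 + σ ^ 3 / 2 := by
    intro x
    rw [← sq_abs (lin v x)]; ring
  have h1 : ∀ x, ρ x * (4 * ((|lin v x| - σ) ^ 2 * (|lin v x| + σ / 2)) -
      ∑ i, ((|lin v x| - σ) ^ 2 * (|lin v x| + σ / 2)
        - (|lin v (flp i x)| - σ) ^ 2 * (|lin v (flp i x)| + σ / 2)))
      ≤ -2 * (ρ x * |lin v x| ^ 3) + 8 * σ ^ 2 * (ρ x * |lin v x|)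
        + 4 * (∑ i, v i ^ 2 * (ρ x * |lin v (flp i x)|)) - 4 * σ ^ 3 * ρ x := by
    intro x
    have e1 : ∑ i, ((|lin v x| - σ) ^ 2 * (|lin v x| + σ / 2)
        - (|lin v (flp i x)| - σ) ^ 2 * (|lin v (flp i x)| + σ / 2))
        = - ∑ i, (|lin v (flp i x)| ^ 3 - |lin v x| ^ 3)
          - 3 / 2 * σ * ∑ i, (lin v x ^ 2 - lin v (flp i x) ^ 2) := by
      rw [Finset.mul_sum, ← Finset.sum_neg_distrib, ← Finset.sum_sub_distrib]
      apply Finset.sum_congr rfl
      intro i _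
      rw [e0, e0]; ring
    rw [e1, sq_lin, hv, e0]
    have h2 := cube_sum v x
    rw [hv] at h2
    have h3 := h.nonneg x
    have e2 : ∑ i, v i ^ 2 * (ρ x * |lin v (flp i x)|)
        = ρ x * ∑ i, v i ^ 2 * |lin v (flp i x)| := by
      rw [Finset.mul_sum]
      exact Finset.sum_congr rfl (fun i _ => by ring)
    rw [e2]
    have h4 := mul_le_mul_of_nonneg_left h2 h3
    nlinarith [h4]
  have h5 : 0 ≤ -2 * (∑ x, ρ x * |lin v x| ^ 3) + 8 * σ ^ 2 * (∑ x, ρ x * |lin v x|)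
        + 4 * (∑ i, v i ^ 2 * ∑ x, (ρ x * |lin v (flp i x)|)) - 4 * σ ^ 3 * ∑ x, ρ x := by
    have e3 : ∑ i, v i ^ 2 * ∑ x, (ρ x * |lin v (flp i x)|)
        = ∑ x, ∑ i, v i ^ 2 * (ρ x * |lin v (flp i x)|) := by
      rw [Finset.sum_comm]
      exact Finset.sum_congr rfl (fun i _ => Finset.mul_sum _ _ _)
    rw [e3, Finset.mul_sum, Finset.mul_sum, Finset.mul_sum, Finset.mul_sum,
      ← Finset.sum_add_distrib, ← Finset.sum_add_distrib, ← Finset.sum_sub_distrib]
    exact ht.trans (Finset.sum_le_sum (fun x _ => h1 x))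
  have hA := h.first v σ hσ hv
  have hAi : ∀ i, ∑ x, ρ x * |lin v (flp i x)| ≤ 2 * σ * ∑ x, ρ x := by
    intro i
    simp_rw [lin_flp']
    exact h.first _ σ hσ (by rw [sum_neg_sq, hv])
  have hB : ∑ i, v i ^ 2 * ∑ x, (ρ x * |lin v (flp i x)|) ≤ σ ^ 2 * (2 * σ * ∑ x, ρ x) := by
    rw [← hv, Finset.sum_mul]
    exact Finset.sum_le_sum (fun i _ => mul_le_mul_of_nonneg_left (hAi i) (sq_nonneg _))
  have hC : σ ^ 2 * (∑ x, ρ x * |lin v x|) ≤ σ ^ 2 * (2 * σ * ∑ x, ρ x) :=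
    mul_le_mul_of_nonneg_left hA (sq_nonneg _)
  nlinarith [hB, hC, h5]

/-- Second moment bound for linear forms. -/
lemma IsKato.second {n : ℕ} {ρ : Cube n → ℝ} (h : IsKato ρ) (v : Fin n → ℝ) :
    ∑ x, ρ x * lin v x ^ 2 ≤ 2 * Real.sqrt 5 * (∑ i, v i ^ 2) * ∑ x, ρ x := by
  have hs : 0 ≤ ∑ i, v i ^ 2 := Finset.sum_nonneg (fun i _ => sq_nonneg _)
  rcases hs.eq_or_lt with h0 | h0
  · have hv : ∀ i, v i = 0 := by
      intro i
      have := (Finset.sum_eq_zero_iff_of_nonneg (fun i _ => sq_nonneg (v i))).1 h0.symm i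
        (Finset.mem_univ i)
      exact pow_eq_zero_iff (two_ne_zero) |>.1 this
    have : ∀ x, lin v x = 0 := by
      intro x; simp [lin, hv]
    simp [this, ← h0]
  · obtain ⟨σ, hσ, hv⟩ : ∃ σ : ℝ, 0 < σ ∧ ∑ i, v i ^ 2 = σ ^ 2 :=
      ⟨Real.sqrt (∑ i, v i ^ 2), Real.sqrt_pos.2 h0, (Real.sq_sqrt hs).symm⟩
    have h1 := h.first v σ hσ hv
    have h3 := h.third v σ hσ hv
    have h5 : Real.sqrt 5 ^ 2 = 5 := Real.sq_sqrt (by norm_num)
    have h5p : 0 < Real.sqrt 5 := Real.sqrt_pos.2 (by norm_num)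
    set w := Real.sqrt 5
    have hp : ∀ x, 2 * w * σ * (ρ x * lin v x ^ 2)
        ≤ w ^ 2 * σ ^ 2 * (ρ x * |lin v x|) + ρ x * |lin v x| ^ 3 := by
      intro x
      have h6 : 2 * w * σ * lin v x ^ 2 ≤ w ^ 2 * σ ^ 2 * |lin v x| + |lin v x| ^ 3 := by
        have : 0 ≤ |lin v x| * (|lin v x| - w * σ) ^ 2 := mul_nonneg (abs_nonneg _) (sq_nonneg _)
        rw [← sq_abs (lin v x)]
        nlinarith
      nlinarith [mul_le_mul_of_nonneg_left h6 (h.nonneg x)]
    have h7 : 2 * w * σ * (∑ x, ρ x * lin v x ^ 2)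
        ≤ w ^ 2 * σ ^ 2 * (∑ x, ρ x * |lin v x|) + ∑ x, ρ x * |lin v x| ^ 3 := by
      rw [Finset.mul_sum, Finset.mul_sum, ← Finset.sum_add_distrib]
      exact Finset.sum_le_sum (fun x _ => hp x)
    have hH : 0 ≤ ∑ x, ρ x := Finset.sum_nonneg (fun x _ => h.nonneg x)
    have h8 : w ^ 2 * σ ^ 2 * (∑ x, ρ x * |lin v x|) ≤ w ^ 2 * σ ^ 2 * (2 * σ * ∑ x, ρ x) :=
      mul_le_mul_of_nonneg_left h1 (by positivity)
    have h9 : (2 * w * σ) * (∑ x, ρ x * lin v x ^ 2)
        ≤ (2 * w * σ) * (2 * w * σ ^ 2 * ∑ x, ρ x) := by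
      calc _ ≤ w ^ 2 * σ ^ 2 * (2 * σ * ∑ x, ρ x) + 10 * σ ^ 3 * ∑ x, ρ x := by linarith
        _ = 4 * w ^ 2 * σ ^ 3 * ∑ x, ρ x := by rw [h5]; ring
        _ = _ := by ring
    have h10 := le_of_mul_le_mul_left h9 (by positivity)
    rw [hv]; linarith

/-- quadratic forms with matrix `G` -/
noncomputable def qd {n : ℕ} (G : Fin n → Fin n → ℝ) (x : Cube n) : ℝ :=
  1 / 2 * ∑ i, ∑ j, G i j * (sg x i * sg x j)

lemma qd_flp {n : ℕ} (G : Fin n → Fin n → ℝ) (hs : ∀ i j, G i j = G j i) (hd : ∀ i, G i i = 0)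
    (i : Fin n) (x : Cube n) : qd G (flp i x) = qd G x - 2 * (sg x i * lin (G i) x) := by
  have h1 : ∀ a b, G a b * (sg (flp i x) a * sg (flp i x) b) = G a b * (sg x a * sg x b)
      - (if a = i then 2 * (sg x i * (G i b * sg x b)) else 0)
      - (if b = i then 2 * (sg x i * (G i a * sg x a)) else 0) := by
    intro a b
    rw [sg_flp, sg_flp]
    by_cases ha : a = i
    · subst ha
      by_cases hb : b = a
      · subst hb; simp [hd]
      · simp [hb]; ring
    · by_cases hb : b = i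
      · subst hb; simp [ha, hs a b]; ring
      · simp [ha, hb]
  unfold qd
  simp_rw [h1, Finset.sum_sub_distrib]
  have h2 : ∑ a, ∑ b, (if a = i then 2 * (sg x i * (G i b * sg x b)) else 0)
      = 2 * (sg x i * lin (G i) x) := by
    rw [Finset.sum_eq_single i]
    · simp only [if_true, lin]
      rw [Finset.mul_sum, Finset.mul_sum]
    · intro a _ ha; simp [ha]
    · simp
  have h3 : ∑ a, ∑ b, (if b = i then 2 * (sg x i * (G i a * sg x a)) else 0)
      = 2 * (sg x i * lin (G i) x) := by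
    simp only [Finset.sum_ite_eq', Finset.mem_univ, if_true, lin]
    rw [Finset.mul_sum, Finset.mul_sum]
  rw [h2, h3]; ring

lemma qd_eq {n : ℕ} (G : Fin n → Fin n → ℝ) (x : Cube n) :
    ∑ i, sg x i * lin (G i) x = 2 * qd G x := by
  unfold qd lin
  have : ∀ i, sg x i * ∑ j, G i j * sg x j = ∑ j, G i j * (sg x i * sg x j) := by
    intro i
    rw [Finset.mul_sum]
    exact Finset.sum_congr rfl (fun j _ => by ring)
  simp_rw [this]; ring

/-- Quartic test: `E q^2 ≤ E Γ(q)`. -/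
lemma IsKato.quartic {n : ℕ} {ρ : Cube n → ℝ} (h : IsKato ρ) (G : Fin n → Fin n → ℝ)
    (hs : ∀ i j, G i j = G j i) (hd : ∀ i, G i i = 0) :
    ∑ x, ρ x * qd G x ^ 2 ≤ 2 * Real.sqrt 5 * (∑ i, ∑ j, G i j ^ 2) * ∑ x, ρ x := by
  have ht := h.test (fun x => qd G x ^ 2) (fun x => sq_nonneg _)
  have h1 : ∀ x, ρ x * (4 * qd G x ^ 2 - ∑ i, (qd G x ^ 2 - qd G (flp i x) ^ 2))
      = 4 * (∑ i, ρ x * lin (G i) x ^ 2) - 4 * (ρ x * qd G x ^ 2) := by
    intro x
    have h2 : ∀ i, qd G x ^ 2 - qd G (flp i x) ^ 2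
        = 4 * qd G x * (sg x i * lin (G i) x) - 4 * lin (G i) x ^ 2 := by
      intro i
      rw [qd_flp G hs hd]
      have := sg_sq x i
      have e : (sg x i * lin (G i) x) ^ 2 = lin (G i) x ^ 2 := by rw [mul_pow, this, one_mul]
      have e2 : qd G x ^ 2 - (qd G x - 2 * (sg x i * lin (G i) x)) ^ 2
        = 4 * qd G x * (sg x i * lin (G i) x) - 4 * (sg x i * lin (G i) x) ^ 2 := by ring
      rw [e2, e]
    simp_rw [h2]
    rw [Finset.sum_sub_distrib, ← Finset.mul_sum, qd_eq, ← Finset.mul_sum, ← Finset.mul_sum]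
    ring
  simp_rw [h1] at ht
  rw [Finset.sum_sub_distrib, ← Finset.mul_sum, ← Finset.mul_sum, Finset.sum_comm] at ht
  have h3 : ∑ i, ∑ x, ρ x * lin (G i) x ^ 2
      ≤ 2 * Real.sqrt 5 * (∑ i, ∑ j, G i j ^ 2) * ∑ x, ρ x := by
    generalize hK : ∑ x, ρ x = K
    rw [Finset.mul_sum, Finset.sum_mul]
    exact Finset.sum_le_sum (fun i _ => by rw [← hK]; exact h.second (G i))
  linarith

/-- level-2 coefficients -/
noncomputable def lev {n : ℕ} (ρ : Cube n → ℝ) (i j : Fin n) : ℝ :=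
  if i = j then 0 else ∑ x, ρ x * (sg x i * sg x j)

lemma lev_symm {n : ℕ} (ρ : Cube n → ℝ) (i j : Fin n) : lev ρ i j = lev ρ j i := by
  unfold lev
  by_cases h : i = j
  · simp [h]
  · rw [if_neg h, if_neg (Ne.symm h)]
    exact Finset.sum_congr rfl (fun x _ => by ring)

lemma expand_var {n : ℕ} (ρ q : Cube n → ℝ) (H t : ℝ) :
    ∑ x, ρ x * (2 * H * q x - t) ^ 2
      = 4 * H ^ 2 * (∑ x, ρ x * q x ^ 2) - 4 * H * t * (∑ x, ρ x * q x)
        + t ^ 2 * ∑ x, ρ x := by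
  rw [Finset.mul_sum, Finset.mul_sum, Finset.mul_sum,
    ← Finset.sum_sub_distrib, ← Finset.sum_add_distrib]
  exact Finset.sum_congr rfl (fun x _ => by ring)

lemma IsKato.level_two {n : ℕ} {ρ : Cube n → ℝ} (h : IsKato ρ) :
    ∑ i, ∑ j, lev ρ i j ^ 2 ≤ 8 * Real.sqrt 5 * (∑ x, ρ x) ^ 2 := by
  have hH : 0 ≤ ∑ x, ρ x := Finset.sum_nonneg (fun x _ => h.nonneg x)
  have h5p : 0 < Real.sqrt 5 := Real.sqrt_pos.2 (by norm_num)
  have ht0 : 0 ≤ ∑ i, ∑ j, lev ρ i j ^ 2 :=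
    Finset.sum_nonneg (fun i _ => Finset.sum_nonneg (fun j _ => sq_nonneg _))
  rcases hH.eq_or_lt with h0 | h0
  · have hρ : ∀ x, ρ x = 0 := by
      intro x
      exact (Finset.sum_eq_zero_iff_of_nonneg (fun x _ => h.nonneg x)).1 h0.symm x
        (Finset.mem_univ x)
    have : ∀ i j, lev ρ i j = 0 := by
      intro i j
      unfold lev
      split_ifs
      · rfl
      · simp [hρ]
    simp [this, ← h0]
  · have hq := h.quartic (lev ρ) (lev_symm ρ) (fun i => by simp [lev])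
    have hm : ∑ x, ρ x * qd (lev ρ) x = 1 / 2 * ∑ i, ∑ j, lev ρ i j ^ 2 := by
      unfold qd
      have e1 : ∀ x, ρ x * (1 / 2 * ∑ i, ∑ j, lev ρ i j * (sg x i * sg x j))
          = 1 / 2 * ∑ i, ∑ j, lev ρ i j * (ρ x * (sg x i * sg x j)) := by
        intro x
        rw [mul_left_comm, Finset.mul_sum]
        congr 1
        apply Finset.sum_congr rfl
        intro i _
        rw [Finset.mul_sum]
        exact Finset.sum_congr rfl (fun j _ => by ring)
      simp_rw [e1]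
      rw [← Finset.mul_sum, Finset.sum_comm]
      congr 1
      apply Finset.sum_congr rfl
      intro i _
      rw [Finset.sum_comm]
      apply Finset.sum_congr rfl
      intro j _
      rw [← Finset.mul_sum]
      by_cases hij : i = j
      · simp [lev, hij]
      · rw [sq]
        congr 1
        simp [lev, hij]
    set t := ∑ i, ∑ j, lev ρ i j ^ 2
    set H := ∑ x, ρ x with hHdef
    have hvar : 0 ≤ ∑ x, ρ x * (2 * H * qd (lev ρ) x - t) ^ 2 :=
      Finset.sum_nonneg (fun x _ => mul_nonneg (h.nonneg x) (sq_nonneg _))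
    have e2 : ∑ x, ρ x * (2 * H * qd (lev ρ) x - t) ^ 2
        = 4 * H ^ 2 * (∑ x, ρ x * qd (lev ρ) x ^ 2) - 4 * H * t * (∑ x, ρ x * qd (lev ρ) x)
          + t ^ 2 * H := expand_var ρ (qd (lev ρ)) H t
    rw [e2, hm] at hvar
    have h6 : t * (H * t) ≤ (8 * Real.sqrt 5 * H ^ 2) * (H * t) := by
      have := mul_le_mul_of_nonneg_left hq (show (0 : ℝ) ≤ 4 * H ^ 2 by positivity)
      nlinarith
    rcases ht0.eq_or_lt with h7 | h7
    · rw [← h7]; positivity
    · exact le_of_mul_le_mul_right h6 (mul_pos h0 h7)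

/-! ### Walsh expansion -/

/-- Walsh functions -/
def wal {n : ℕ} (S : Finset (Fin n)) (x : Cube n) : ℝ := ∏ i ∈ S, sg x i

lemma prod_one_add_sg {n : ℕ} (x y : Cube n) :
    ∏ i, (1 + sg x i * sg y i) = if x = y then (2 : ℝ) ^ n else 0 := by
  split_ifs with h
  · subst h
    have : ∀ i, 1 + sg x i * sg x i = 2 := by
      intro i; rw [sg_mul_self]; norm_num
    simp [this]
  · obtain ⟨i, hi⟩ := Function.ne_iff.1 h
    apply Finset.prod_eq_zero (Finset.mem_univ i)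
    rcases Int.units_eq_one_or (x i) with h1 | h1 <;> rcases Int.units_eq_one_or (y i) with h2 | h2
    · exact absurd (h1.trans h2.symm) hi
    · simp [sg, h1, h2]
    · simp [sg, h1, h2]
    · exact absurd (h1.trans h2.symm) hi

lemma sum_wal {n : ℕ} (x y : Cube n) :
    ∑ S : Finset (Fin n), wal S x * wal S y = if x = y then (2 : ℝ) ^ n else 0 := by
  rw [← prod_one_add_sg, Finset.prod_one_add]
  rw [Finset.powerset_univ]
  apply Finset.sum_congr rfl
  intro S _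
  rw [wal, wal, ← Finset.prod_mul_distrib]

/-- Walsh coefficient (unnormalised) -/
def coef {n : ℕ} (f : Cube n → ℝ) (S : Finset (Fin n)) : ℝ := ∑ x, f x * wal S x

lemma parseval {n : ℕ} (f g : Cube n → ℝ) :
    ∑ S, coef f S * coef g S = 2 ^ n * ∑ x, f x * g x := by
  unfold coef
  simp_rw [Finset.sum_mul_sum]
  rw [Finset.sum_comm]
  have h1 : ∀ x, ∑ S, ∑ y, f x * wal S x * (g y * wal S y) = 2 ^ n * (f x * g x) := by
    intro x
    rw [Finset.sum_comm]
    have h2 : ∀ y, ∑ S, f x * wal S x * (g y * wal S y)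
        = f x * g y * (if x = y then (2 : ℝ) ^ n else 0) := by
      intro y
      rw [← sum_wal, Finset.mul_sum]
      exact Finset.sum_congr rfl (fun S _ => by ring)
    simp_rw [h2]
    simp; ring
  simp_rw [h1]
  rw [Finset.mul_sum]

lemma wal_flp {n : ℕ} (i : Fin n) (S : Finset (Fin n)) (x : Cube n) :
    wal S (flp i x) = (if i ∈ S then -1 else 1) * wal S x := by
  unfold wal
  simp_rw [sg_flp]
  rw [Finset.prod_mul_distrib]
  congr 1
  simp [Finset.prod_ite_eq']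

lemma coef_flp {n : ℕ} (f : Cube n → ℝ) (i : Fin n) (S : Finset (Fin n)) :
    coef (fun x => f (flp i x)) S = (if i ∈ S then -1 else 1) * coef f S := by
  unfold coef
  rw [← sum_flp i, Finset.mul_sum]
  apply Finset.sum_congr rfl
  intro x _
  simp only [flp_flp, wal_flp]; ring

lemma energy {n : ℕ} (f : Cube n → ℝ) :
    2 ^ n * ∑ x, f x * ∑ i, (f x - f (flp i x)) = ∑ S, 2 * (S.card : ℝ) * coef f S ^ 2 := by
  have h1 : ∀ i, 2 ^ n * ∑ x, f x * (f x - f (flp i x))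
      = ∑ S, (if i ∈ S then 2 else 0) * coef f S ^ 2 := by
    intro i
    have h2 : ∑ x, f x * (f x - f (flp i x)) = ∑ x, f x * f x - ∑ x, f x * f (flp i x) := by
      rw [← Finset.sum_sub_distrib]
      exact Finset.sum_congr rfl (fun x _ => by ring)
    rw [h2, mul_sub, ← parseval f f, ← parseval f (fun x => f (flp i x)),
      ← Finset.sum_sub_distrib]
    apply Finset.sum_congr rfl
    intro S _
    rw [coef_flp]
    split_ifs <;> ring
  have h3 : ∑ x, f x * ∑ i, (f x - f (flp i x)) = ∑ i, ∑ x, f x * (f x - f (flp i x)) := by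
    simp_rw [Finset.mul_sum]
    exact Finset.sum_comm
  rw [h3, Finset.mul_sum]
  simp_rw [h1]
  rw [Finset.sum_comm]
  apply Finset.sum_congr rfl
  intro S _
  rw [← Finset.sum_mul]
  congr 1
  simp [Finset.sum_ite_mem, mul_comm]

lemma sg_neg {n : ℕ} (x : Cube n) (i : Fin n) : sg (-x) i = - sg x i := by
  simp [sg]

lemma wal_neg {n : ℕ} (S : Finset (Fin n)) (x : Cube n) :
    wal S (-x) = (-1) ^ S.card * wal S x := by
  unfold wal
  simp_rw [sg_neg]
  rw [Finset.prod_neg]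

lemma coef_odd {n : ℕ} (f : Cube n → ℝ) (hf : ∀ x, f (-x) = f x) (S : Finset (Fin n))
    (hS : Odd S.card) : coef f S = 0 := by
  have h1 : coef f S = - coef f S := by
    conv_lhs => rw [coef, ← Equiv.sum_comp (Equiv.neg (Cube n))]
    rw [coef, ← Finset.sum_neg_distrib]
    apply Finset.sum_congr rfl
    intro x _
    rw [Equiv.neg_apply, hf, wal_neg, hS.neg_one_pow]; ring
  linarith

/-- Kato in the energy form, for even functions. -/
lemma IsKato.energy_bound {n : ℕ} {ρ : Cube n → ℝ} (h : IsKato ρ) (he : ∀ x, ρ (-x) = ρ x) :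
    2 ^ n * ∑ x, ρ x ^ 2 ≤ 2 * (∑ x, ρ x) ^ 2 + 1 / 2 * ∑ i, ∑ j, lev ρ i j ^ 2 := by
  have h1 : ∑ x, ρ x * ∑ i, (ρ x - ρ (flp i x)) ≤ 4 * ∑ x, ρ x ^ 2 := by
    rw [Finset.mul_sum]
    apply Finset.sum_le_sum
    intro x _
    nlinarith [mul_le_mul_of_nonneg_left (h.kato x) (h.nonneg x)]
  have h2 : 2 ^ n * ∑ x, ρ x * ∑ i, (ρ x - ρ (flp i x)) ≤ 2 ^ n * (4 * ∑ x, ρ x ^ 2) :=
    mul_le_mul_of_nonneg_left h1 (by positivity)
  rw [energy] at h2
  have hp : 2 ^ n * ∑ x, ρ x ^ 2 = ∑ S, coef ρ S ^ 2 := by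
    have := parseval ρ ρ
    simp_rw [← sq] at this
    exact this.symm
  have hpair : ∀ S : Finset (Fin n), S.card = 2 →
      2 ≤ ∑ i, ∑ j, (if i ≠ j ∧ S = {i, j} then (1 : ℝ) else 0) := by
    intro S hS
    obtain ⟨a, b, hab, rfl⟩ := Finset.card_eq_two.1 hS
    have e1 : (1 : ℝ) ≤ ∑ j, (if a ≠ j ∧ ({a, b} : Finset (Fin n)) = {a, j} then (1 : ℝ) else 0) := by
      have := Finset.single_le_sum (f := fun j => (if a ≠ j ∧ ({a, b} : Finset (Fin n)) = {a, j}
        then (1 : ℝ) else 0)) (fun j _ => by positivity) (Finset.mem_univ b)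
      simpa [hab] using this
    have e2 : (1 : ℝ) ≤ ∑ j, (if b ≠ j ∧ ({a, b} : Finset (Fin n)) = {b, j} then (1 : ℝ) else 0) := by
      have := Finset.single_le_sum (f := fun j => (if b ≠ j ∧ ({a, b} : Finset (Fin n)) = {b, j}
        then (1 : ℝ) else 0)) (fun j _ => by positivity) (Finset.mem_univ a)
      simpa [hab.symm, Finset.pair_comm] using this
    have e3 := Finset.add_le_sum (s := Finset.univ) (f := fun i => ∑ j, (if i ≠ j ∧
      ({a, b} : Finset (Fin n)) = {i, j} then (1 : ℝ) else 0))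
      (fun i _ => Finset.sum_nonneg (fun j _ => by positivity)) (Finset.mem_univ a)
      (Finset.mem_univ b) hab
    linarith
  have hkey : ∀ S : Finset (Fin n), coef ρ S ^ 2 ≤
      1 / 4 * (2 * (S.card : ℝ) * coef ρ S ^ 2 - 4 * coef ρ S ^ 2)
        + 2 * (if S = ∅ then coef ρ S ^ 2 else 0)
        + 1 / 2 * ∑ i, ∑ j, (if i ≠ j ∧ S = {i, j} then coef ρ S ^ 2 else 0) := by
    intro S
    have hnn : 0 ≤ coef ρ S ^ 2 := sq_nonneg _
    have hnn2 : 0 ≤ ∑ i, ∑ j, (if i ≠ j ∧ S = {i, j} then coef ρ S ^ 2 else 0) :=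
      Finset.sum_nonneg (fun i _ => Finset.sum_nonneg (fun j _ => by positivity))
    rcases Nat.even_or_odd S.card with hS | hS
    · rcases Nat.lt_or_ge S.card 4 with h4 | h4
      · have h02 : S.card = 0 ∨ S.card = 2 := by
          rcases hS with ⟨k, hk⟩; omega
        rcases h02 with h0 | h0
        · have : S = ∅ := Finset.card_eq_zero.1 h0
          rw [if_pos this, h0]
          push_cast
          nlinarith
        · have e1 : ∑ i, ∑ j, (if i ≠ j ∧ S = {i, j} then coef ρ S ^ 2 else 0)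
              = (∑ i, ∑ j, (if i ≠ j ∧ S = {i, j} then (1 : ℝ) else 0)) * coef ρ S ^ 2 := by
            rw [Finset.sum_mul]
            apply Finset.sum_congr rfl
            intro i _
            rw [Finset.sum_mul]
            apply Finset.sum_congr rfl
            intro j _
            split_ifs <;> simp
          have e2 := mul_le_mul_of_nonneg_right (hpair S h0) hnn
          have e3 : 0 ≤ (if S = ∅ then coef ρ S ^ 2 else 0) := by positivity
          rw [e1, h0]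
          push_cast
          nlinarith
      · have h4' : (4 : ℝ) ≤ S.card := by exact_mod_cast h4
        have e3 : 0 ≤ (if S = ∅ then coef ρ S ^ 2 else 0) := by positivity
        nlinarith [mul_le_mul_of_nonneg_right h4' hnn]
    · have : coef ρ S = 0 := coef_odd ρ he S hS
      simp [this]
  have hsum := Finset.sum_le_sum (s := Finset.univ) (fun S _ => hkey S)
  rw [Finset.sum_add_distrib, Finset.sum_add_distrib, ← Finset.mul_sum, ← Finset.mul_sum,
    ← Finset.mul_sum, Finset.sum_sub_distrib, ← Finset.mul_sum] at hsum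
  have h0 : ∑ S : Finset (Fin n), (if S = ∅ then coef ρ S ^ 2 else 0) = (∑ x, ρ x) ^ 2 := by
    rw [Finset.sum_ite_eq']
    simp [coef, wal]
  have h22 : ∑ S : Finset (Fin n), ∑ i, ∑ j, (if i ≠ j ∧ S = {i, j} then coef ρ S ^ 2 else 0)
      = ∑ i, ∑ j, lev ρ i j ^ 2 := by
    rw [Finset.sum_comm]
    apply Finset.sum_congr rfl
    intro i _
    rw [Finset.sum_comm]
    apply Finset.sum_congr rfl
    intro j _
    by_cases hij : i = j
    · simp [hij, lev]
    · rw [Finset.sum_eq_single {i, j}]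
      · rw [if_pos ⟨hij, rfl⟩]
        simp [coef, wal, lev, hij, Finset.prod_pair hij]
      · intro S _ hS
        rw [if_neg (fun hc => hS hc.2)]
      · simp
  rw [h0, h22, ← hp] at hsum
  linarith

/-! ### Quadratic forms and their positive parts -/

lemma IsTwoHom.neg {n : ℕ} {f : Cube n → ℝ} (hf : IsTwoHom f) : IsTwoHom (fun x => - f x) := by
  obtain ⟨a, ha⟩ := hf
  refine ⟨fun i j => - a i j, fun x => ?_⟩
  simp only
  rw [ha, ← Finset.sum_neg_distrib]
  apply Finset.sum_congr rfl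
  intro i _
  rw [← Finset.sum_neg_distrib]
  apply Finset.sum_congr rfl
  intro j _
  split_ifs <;> ring

lemma IsTwoHom.even {n : ℕ} {f : Cube n → ℝ} (hf : IsTwoHom f) (x : Cube n) :
    f (-x) = f x := by
  obtain ⟨a, ha⟩ := hf
  rw [ha, ha]
  apply Finset.sum_congr rfl
  intro i _
  apply Finset.sum_congr rfl
  intro j _
  simp

lemma count_four {n : ℕ} (i j : Fin n) (h : i ≠ j) :
    ∑ k, ((1 : ℝ) - (if i = k then -1 else 1) * (if j = k then -1 else 1)) = 4 := by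
  have h1 : ∀ k, ((1 : ℝ) - (if i = k then -1 else 1) * (if j = k then -1 else 1))
      = (if i = k then 2 else 0) + (if j = k then 2 else 0) := by
    intro k
    by_cases hi : i = k
    · have hj : j ≠ k := fun hj => h (hi.trans hj.symm)
      simp [hi, hj]; norm_num
    · by_cases hj : j = k
      · simp [hi, hj]; norm_num
      · simp [hi, hj]
  simp_rw [h1, Finset.sum_add_distrib]
  simp; norm_num

lemma IsTwoHom.eigen {n : ℕ} {f : Cube n → ℝ} (hf : IsTwoHom f) (x : Cube n) :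
    ∑ k, (f x - f (flp k x)) = 4 * f x := by
  obtain ⟨a, ha⟩ := hf
  have h1 : ∀ k, f x - f (flp k x) = ∑ i, ∑ j, (if i < j then a i j * sg x i * sg x j else 0)
      * (1 - (if i = k then -1 else 1) * (if j = k then -1 else 1)) := by
    intro k
    rw [ha, ha, ← Finset.sum_sub_distrib]
    apply Finset.sum_congr rfl
    intro i _
    rw [← Finset.sum_sub_distrib]
    apply Finset.sum_congr rfl
    intro j _
    have e1 := sg_flp k i x
    have e2 := sg_flp k j x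
    unfold sg at e1 e2
    rw [e1, e2]
    split_ifs <;> simp [sg] <;> ring
  simp_rw [h1]
  rw [Finset.sum_comm, ha, Finset.mul_sum]
  apply Finset.sum_congr rfl
  intro i _
  rw [Finset.sum_comm, Finset.mul_sum]
  apply Finset.sum_congr rfl
  intro j _
  rw [← Finset.mul_sum]
  split_ifs with hij
  · rw [count_four i j hij.ne]; simp [sg]; ring
  · simp

lemma IsTwoHom.kato {n : ℕ} {f : Cube n → ℝ} (hf : IsTwoHom f) :
    IsKato (fun x => max (f x) 0) := by
  refine ⟨fun x => le_max_right _ _, fun x => ?_⟩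
  rcases le_total 0 (f x) with h | h
  · rw [max_eq_left h, ← hf.eigen x]
    exact Finset.sum_le_sum (fun i _ => by linarith [le_max_left (f (flp i x)) 0])
  · rw [max_eq_right h]
    simp only [mul_zero]
    exact Finset.sum_nonpos (fun i _ => by linarith [le_max_right (f (flp i x)) 0])

lemma IsTwoHom.sum_zero {n : ℕ} {f : Cube n → ℝ} (hf : IsTwoHom f) : ∑ x, f x = 0 := by
  have h1 : ∑ x, ∑ k, (f x - f (flp k x)) = 4 * ∑ x, f x := by
    rw [Finset.mul_sum]
    exact Finset.sum_congr rfl (fun x _ => hf.eigen x)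
  have h2 : ∑ x, ∑ k, (f x - f (flp k x)) = 0 := by
    rw [Finset.sum_comm]
    apply Finset.sum_eq_zero
    intro k _
    rw [Finset.sum_sub_distrib, sum_flp, sub_self]
  linarith

lemma half_bound {n : ℕ} {f : Cube n → ℝ} (hf : IsTwoHom f) :
    2 ^ n * ∑ x, (max (f x) 0) ^ 2 ≤ (2 + 4 * Real.sqrt 5) * (∑ x, max (f x) 0) ^ 2 := by
  have h1 := hf.kato.energy_bound (fun x => by simp only [hf.even])
  have h2 := hf.kato.level_two
  linarith

lemma main {n : ℕ} {f : Cube n → ℝ} (hf : IsTwoHom f) :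
    2 ^ n * ∑ x, f x ^ 2 ≤ (1 + 2 * Real.sqrt 5) * (∑ x, |f x|) ^ 2 := by
  have h1 := half_bound hf
  have h2 := half_bound hf.neg
  have e1 : ∑ x, f x ^ 2 = ∑ x, (max (f x) 0) ^ 2 + ∑ x, (max (-f x) 0) ^ 2 := by
    rw [← Finset.sum_add_distrib]
    apply Finset.sum_congr rfl
    intro x _
    rcases le_total 0 (f x) with h | h
    · rw [max_eq_left h, max_eq_right (by linarith)]; ring
    · rw [max_eq_right h, max_eq_left (by linarith)]; ring
  have e2 : ∑ x, |f x| = ∑ x, max (f x) 0 + ∑ x, max (-f x) 0 := by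
    rw [← Finset.sum_add_distrib]
    apply Finset.sum_congr rfl
    intro x _
    rcases le_total 0 (f x) with h | h
    · rw [max_eq_left h, max_eq_right (by linarith), abs_of_nonneg h]; ring
    · rw [max_eq_right h, max_eq_left (by linarith), abs_of_nonpos h]; ring
  have e3 : ∑ x, max (f x) 0 = ∑ x, max (-f x) 0 := by
    have : ∑ x, f x = ∑ x, max (f x) 0 - ∑ x, max (-f x) 0 := by
      rw [← Finset.sum_sub_distrib]
      apply Finset.sum_congr rfl
      intro x _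
      rcases le_total 0 (f x) with h | h
      · rw [max_eq_left h, max_eq_right (by linarith)]; ring
      · rw [max_eq_right h, max_eq_left (by linarith)]; ring
    rw [hf.sum_zero] at this
    linarith
  rw [e1, e2]
  rw [← e3] at h2 ⊢
  nlinarith

/-- Every 2-homogeneous polynomial on every discrete cube satisfies
`‖f‖₂ ≤ √(1 + 2√5) ‖f‖₁`, and `√(1 + 2√5) < 2.34 < e`. -/
theorem result : (∀ (n : ℕ) (f : Cube n → ℝ), IsTwoHom f →
      lpNorm 2 f ≤ Real.sqrt (1 + 2 * Real.sqrt 5) * lpNorm 1 f) ∧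
    Real.sqrt (1 + 2 * Real.sqrt 5) < 2.34 := by
  constructor
  · intro n f hf
    have h := main hf
    have hN : (2 : ℝ) ^ (-(n : ℝ)) = ((2 : ℝ) ^ n)⁻¹ := by
      rw [Real.rpow_neg (by norm_num), Real.rpow_natCast]
    unfold lpNorm
    rw [hN, ← Real.sqrt_eq_rpow]
    simp only [Real.rpow_one, div_one, Real.rpow_two, sq_abs]
    set N : ℝ := (2 : ℝ) ^ n with hNdef
    have hNpos : 0 < N := by positivity
    rw [← Real.sqrt_sq (show 0 ≤ N⁻¹ * ∑ x, |f x| by positivity), ← Real.sqrt_mul (by positivity)]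
    apply Real.sqrt_le_sqrt
    have : N⁻¹ * ∑ x, f x ^ 2 = N⁻¹ ^ 2 * (N * ∑ x, f x ^ 2) := by
      field_simp
    rw [this, mul_pow]
    calc N⁻¹ ^ 2 * (N * ∑ x, f x ^ 2) ≤ N⁻¹ ^ 2 * ((1 + 2 * Real.sqrt 5) * (∑ x, |f x|) ^ 2) :=
          mul_le_mul_of_nonneg_left h (by positivity)
      _ = _ := by ring
  · rw [Real.sqrt_lt' (by norm_num)]
    have : Real.sqrt 5 < 2.2377 := by
      rw [Real.sqrt_lt' (by norm_num)]; norm_num
    nlinarith

end Pool.Agent.Results.MP_9cbc66_an.ChaosBound
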